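import Mathlib

set_option autoImplicit false

open scoped ENNReal NNReal

namespace Pool.Agent.Results.MP_c087c9_gt.HalfLine

/-- The surjective span `σ*(X)`: the supremum, in `[0,∞]`, of the `a` for which some connected
`C ⊆ X × X` has both projections equal to `X` and all its points `(x, y)` at distance
`d(x, y) ≥ a`. -/
noncomputable def surjSpan (X : Type*) [MetricSpace X] : ℝ≥0∞ :=
  sSup {a : ℝ≥0∞ | ∃ C : Set (X × X), IsConnected C ∧
    Prod.fst '' C = Set.univ ∧ Prod.snd '' C = Set.univ ∧ ∀ p ∈ C, a ≤ edist p.1 p.2}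

/-- The surjective semi-span `σ₀*(X)`: as before, but only one of the two projections is
required to be all of `X`. -/
noncomputable def surjSemiSpan (X : Type*) [MetricSpace X] : ℝ≥0∞ :=
  sSup {a : ℝ≥0∞ | ∃ C : Set (X × X), IsConnected C ∧
    (Prod.fst '' C = Set.univ ∨ Prod.snd '' C = Set.univ) ∧ ∀ p ∈ C, a ≤ edist p.1 p.2}

lemma connectedSpace_nnreal : ConnectedSpace ℝ≥0 :=
  Function.Surjective.connectedSpace (f := Real.toNNReal)
    (fun x => ⟨(x : ℝ), Real.toNNReal_coe⟩) continuous_real_toNNReal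

/-- Every connected subset of `[0,∞) × [0,∞)` with both projections onto `[0,∞)` meets the
diagonal. -/
lemma meets_diagonal (C : Set (ℝ≥0 × ℝ≥0)) (hC : IsConnected C)
    (h1 : Prod.fst '' C = Set.univ) (h2 : Prod.snd '' C = Set.univ) :
    ∃ p ∈ C, p.1 = p.2 := by
  have z1 : (0 : ℝ≥0) ∈ Prod.fst '' C := by rw [h1]; trivial
  have z2 : (0 : ℝ≥0) ∈ Prod.snd '' C := by rw [h2]; trivial
  obtain ⟨p, hp, hp0⟩ := z1
  obtain ⟨q, hq, hq0⟩ := z2
  have hiv := hC.isPreconnected.intermediate_value hp hq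
    (f := fun r : ℝ≥0 × ℝ≥0 => (r.1 : ℝ) - (r.2 : ℝ)) (by fun_prop)
  have hmem : (0 : ℝ) ∈ Set.Icc ((p.1 : ℝ) - (p.2 : ℝ)) ((q.1 : ℝ) - (q.2 : ℝ)) := by
    constructor
    · rw [hp0]; simp
    · rw [hq0]; simp
  obtain ⟨r, hr, hr0⟩ := hiv hmem
  refine ⟨r, hr, ?_⟩
  apply NNReal.coe_injective
  have : (r.1 : ℝ) - (r.2 : ℝ) = 0 := hr0
  linarith

lemma span_zero : surjSpan ℝ≥0 = 0 := by
  rw [← bot_eq_zero, surjSpan, sSup_eq_bot]
  rintro a ⟨C, hC, h1, h2, ha⟩
  obtain ⟨p, hp, hpp⟩ := meets_diagonal C hC h1 h2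
  have := ha p hp
  rw [hpp, edist_self] at this
  exact le_antisymm this bot_le

lemma semi_top : surjSemiSpan ℝ≥0 = ⊤ := by
  have := connectedSpace_nnreal
  rw [eq_top_iff]
  apply le_of_forall_lt
  intro b hb
  obtain ⟨n, hn⟩ := ENNReal.exists_nat_gt hb.ne
  refine lt_of_lt_of_le hn (le_sSup ?_)
  refine ⟨Set.range (fun x : ℝ≥0 => (x, x + n)), ?_, ?_, ?_⟩
  · exact isConnected_range (by fun_prop)
  · left
    ext x
    simp
  · rintro _ ⟨x, rfl⟩
    simp only
    rw [edist_comm, edist_dist, NNReal.dist_eq]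
    simp

/-- The half-line `[0,∞)` with its usual metric is a connected (complete, proper) metric space
with surjective span `0` and surjective semi-span `∞`; so the inequality `σ₀* ≤ 2 σ*` fails for
it, and it is not true that the inequality holds for every connected metric space. -/
theorem result :
    (ConnectedSpace ℝ≥0 ∧ ProperSpace ℝ≥0 ∧ CompleteSpace ℝ≥0 ∧
      surjSpan ℝ≥0 = 0 ∧ surjSemiSpan ℝ≥0 = ⊤) ∧
    ¬ ∀ (X : Type) [MetricSpace X] [ConnectedSpace X],
        surjSemiSpan X ≤ 2 * surjSpan X := by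
  refine ⟨⟨connectedSpace_nnreal, inferInstance, inferInstance, span_zero, semi_top⟩, ?_⟩
  intro h
  have := connectedSpace_nnreal
  have h1 := h ℝ≥0
  rw [span_zero, semi_top] at h1
  simp at h1

end Pool.Agent.Results.MP_c087c9_gt.HalfLine
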